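import Mathlib

/-!
# KS: elementary asymptotics used in UBA and LBA
-/

set_option autoImplicit false

open Filter Topology Asymptotics

namespace Pool.Agent.Helper66.KS.Asy

/-- the number of steps given away, as a function of `l = log N` -/
noncomputable def R (l : ℝ) : ℕ := ⌈5 * Real.log l⌉₊

lemma ev_log (c : ℝ) : ∀ᶠ l : ℝ in atTop, c ≤ Real.log l :=
  Real.tendsto_log_atTop.eventually_ge_atTop c

lemma R_le_log : ∀ᶠ l : ℝ in atTop, (R l : ℝ) ≤ 6 * Real.log l := by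
  filter_upwards [ev_log 1] with l hl
  have h1 : (R l : ℝ) < 5 * Real.log l + 1 := Nat.ceil_lt_add_one (by linarith)
  linarith

lemma R_pos : ∀ᶠ l : ℝ in atTop, 1 ≤ R l := by
  filter_upwards [ev_log 1] with l hl
  exact Nat.one_le_ceil_iff.mpr (by linarith)

lemma R_sq_le (c : ℝ) (hc : 0 < c) : ∀ᶠ l : ℝ in atTop, (R l : ℝ) ^ 2 ≤ c * l := by
  have h := (Real.isLittleO_pow_log_id_atTop (n := 2)).bound (show 0 < c / 36 by positivity)
  filter_upwards [R_le_log, h, eventually_ge_atTop 0] with l h1 h2 h3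
  rw [id, Real.norm_of_nonneg h3, Real.norm_of_nonneg (by positivity)] at h2
  have h4 : (R l : ℝ) ^ 2 ≤ (6 * Real.log l) ^ 2 := pow_le_pow_left₀ (by positivity) h1 2
  nlinarith

lemma R_le (c : ℝ) (hc : 0 < c) : ∀ᶠ l : ℝ in atTop, (R l : ℝ) ≤ c * l := by
  filter_upwards [R_sq_le c hc, R_pos] with l h1 h2
  have h3 : (1 : ℝ) ≤ R l := by exact_mod_cast h2
  nlinarith

lemma two_pow_R : ∀ᶠ l : ℝ in atTop, l ^ 3 ≤ 2 ^ R l := by
  filter_upwards [ev_log 1, eventually_gt_atTop 0] with l hl h0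
  have h1 : 5 * Real.log l ≤ (R l : ℝ) := Nat.le_ceil _
  have h2 : (2 : ℝ) ^ R l = Real.exp (R l * Real.log 2) := by
    rw [Real.exp_nat_mul, Real.exp_log two_pos]
  have h3 : l ^ 3 = Real.exp (3 * Real.log l) := by
    rw [show (3 : ℝ) = ((3 : ℕ) : ℝ) by norm_num, Real.exp_nat_mul, Real.exp_log h0]
  rw [h2, h3, Real.exp_le_exp]
  have h4 := Real.log_two_gt_d9
  nlinarith

lemma pow_R_le (D c : ℝ) (hD : 1 ≤ D) (hc : 0 < c) :
    ∀ᶠ l : ℝ in atTop, D ^ R l ≤ Real.exp (c * l) := by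
  have hD0 : 0 ≤ Real.log D := Real.log_nonneg hD
  filter_upwards [R_le (c / (Real.log D + 1)) (by positivity), eventually_ge_atTop 0] with l h1 h3
  have h2 : D ^ R l = Real.exp (R l * Real.log D) := by
    rw [Real.exp_nat_mul, Real.exp_log (by linarith)]
  rw [h2, Real.exp_le_exp]
  calc (R l : ℝ) * Real.log D ≤ (c / (Real.log D + 1) * l) * (Real.log D + 1) := by
        apply mul_le_mul h1 (by linarith) hD0 (by positivity)
    _ = c * l := by field_simp

lemma tangle_le (A B : ℕ) (C c : ℝ) (hC : 0 ≤ C) (hc : 0 < c) : ∀ᶠ l : ℝ in atTop,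
    (((A * R l + B : ℕ) : ℝ) + 1) ^ 2 * (C * (((A * R l + B : ℕ) : ℝ) + 1)) ^ (A * R l + B) ≤
      Real.exp (c * l) := by
  set M : ℝ := (A : ℝ) + B + 1 with hM
  have hM1 : 1 ≤ M := by rw [hM]; have : (0:ℝ) ≤ (A:ℝ) + B := by positivity
                         linarith
  have hM0 : 0 < M := by linarith
  filter_upwards [R_sq_le (c / ((2 + C) * M ^ 2)) (by positivity), R_pos,
    eventually_ge_atTop 0] with l h1 h2 h3
  have h2' : (1 : ℝ) ≤ R l := by exact_mod_cast h2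
  set L : ℕ := A * R l + B with hL
  have hLR : (L : ℝ) + 1 ≤ M * R l := by
    rw [hL, hM]
    push_cast
    have : (0 : ℝ) ≤ B := by positivity
    nlinarith
  have hL0 : (0 : ℝ) ≤ L := by positivity
  have e1 : ((L : ℝ) + 1) ^ 2 ≤ Real.exp (2 * L) := by
    have := Real.add_one_le_exp (L : ℝ)
    calc ((L : ℝ) + 1) ^ 2 ≤ (Real.exp L) ^ 2 := pow_le_pow_left₀ (by positivity) this 2
      _ = Real.exp (2 * L) := by rw [← Real.exp_nat_mul]; norm_num
  have e2 : (C * ((L : ℝ) + 1)) ^ L ≤ Real.exp (L * (C * ((L : ℝ) + 1))) := by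
    rw [Real.exp_nat_mul]
    refine pow_le_pow_left₀ (by positivity) ?_ L
    have := Real.add_one_le_exp (C * ((L : ℝ) + 1))
    linarith
  calc ((L : ℝ) + 1) ^ 2 * (C * ((L : ℝ) + 1)) ^ L
      ≤ Real.exp (2 * L) * Real.exp (L * (C * ((L : ℝ) + 1))) :=
        mul_le_mul e1 e2 (by positivity) (Real.exp_pos _).le
    _ = Real.exp (2 * L + L * (C * ((L : ℝ) + 1))) := (Real.exp_add _ _).symm
    _ ≤ Real.exp (c * l) := by
        rw [Real.exp_le_exp]
        have h5 : ((L : ℝ) + 1) ^ 2 ≤ (M * R l) ^ 2 := pow_le_pow_left₀ (by positivity) hLR 2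
        have h6 : 2 * (L : ℝ) + L * (C * ((L : ℝ) + 1)) ≤ (2 + C) * ((L : ℝ) + 1) ^ 2 := by
          nlinarith [mul_nonneg hC hL0]
        have h7 : (2 + C) * (M * R l) ^ 2 ≤ c * l := by
          calc (2 + C) * (M * R l) ^ 2 = (2 + C) * M ^ 2 * (R l : ℝ) ^ 2 := by ring
            _ ≤ (2 + C) * M ^ 2 * (c / ((2 + C) * M ^ 2) * l) :=
                mul_le_mul_of_nonneg_left h1 (by positivity)
            _ = c * l := by field_simp
        have h8 : (2 + C) * ((L : ℝ) + 1) ^ 2 ≤ (2 + C) * (M * R l) ^ 2 :=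
          mul_le_mul_of_nonneg_left h5 (by positivity)
        linarith

lemma poly_exp (k : ℕ) (A c de : ℝ) (hc : 0 < c) (hde : 0 < de) :
    ∀ᶠ l : ℝ in atTop, A * l ^ k ≤ de * Real.exp (c * l) := by
  have h := (isLittleO_pow_exp_pos_mul_atTop k hc).bound
    (show 0 < de / (|A| + 1) by positivity)
  filter_upwards [h, eventually_ge_atTop 0] with l h1 h2
  rw [Real.norm_of_nonneg (by positivity), Real.norm_of_nonneg (Real.exp_pos _).le] at h1
  have h3 : A * l ^ k ≤ (|A| + 1) * l ^ k :=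
    mul_le_mul_of_nonneg_right (by linarith [le_abs_self A]) (by positivity)
  have h4 : (|A| + 1) * l ^ k ≤ (|A| + 1) * (de / (|A| + 1) * Real.exp (c * l)) :=
    mul_le_mul_of_nonneg_left h1 (by positivity)
  have h5 : (|A| + 1) * (de / (|A| + 1) * Real.exp (c * l)) = de * Real.exp (c * l) := by
    field_simp
  linarith

lemma const_exp (A c de : ℝ) (hc : 0 < c) (hde : 0 < de) :
    ∀ᶠ l : ℝ in atTop, A ≤ de * Real.exp (c * l) := by
  filter_upwards [poly_exp 0 A c de hc hde] with l h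
  simpa using h

end Pool.Agent.Helper66.KS.Asy
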