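import Pool.Agent.Helper66.KS.UBA

/-!
# KS, part LBA: asymptotic form of the lower bound
-/

set_option autoImplicit false

open Finset Filter Topology

namespace KS.LBA_h66

open KS.Inst
open Pool.Agent.Helper66.KS.Asy Pool.Agent.Helper66.KS

open scoped Classical

section num

open Real

lemma om_eq {l N : ℝ} (hN : N = exp l) (hl : 0 < l) : exp (-(l - 3 * log l)) = l ^ 3 / N := by
  rw [hN, neg_sub, exp_sub, show (3 : ℝ) * log l = ((3 : ℕ) : ℝ) * log l by norm_num,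
    exp_nat_mul, exp_log hl]

lemma Nom {l N : ℝ} (hN : N = exp l) (hl : 0 < l) : N * exp (-(l - 3 * log l)) = l ^ 3 := by
  have hN0 : 0 < N := hN ▸ exp_pos l
  rw [om_eq hN hl]
  field_simp

lemma one_div_Nom {l N ep : ℝ} (hN : N = exp l) (h1 : 1 ≤ l) (hep : 0 < ep) (h11 : 2 / ep ≤ l) :
    1 / (N * exp (-(l - 3 * log l))) ≤ ep / 2 := by
  have hl : 0 < l := by linarith
  rw [Nom hN hl, div_le_iff₀ (by positivity)]
  have e1 : l ≤ l ^ 3 := by nlinarith [mul_pos hl hl]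
  have e2 : ep / 2 * (2 / ep) ≤ ep / 2 * l ^ 3 :=
    mul_le_mul_of_nonneg_left (h11.trans e1) (by positivity)
  have e3 : ep / 2 * (2 / ep) = 1 := by field_simp
  linarith

lemma B_le {l N Δ t Cm : ℝ} (hN : N = exp l) (h1 : 1 ≤ l) (hΔ : 0 ≤ Δ) (ht : t ≤ Cm * l) :
    1 + 2 * Δ * t / exp (-(l - 3 * log l)) ≤ 1 + 2 * Δ * Cm * (N / l ^ 2) := by
  have hl : 0 < l := by linarith
  have hN0 : 0 < N := hN ▸ exp_pos l
  have e1 : 2 * Δ * t / exp (-(l - 3 * log l)) ≤ 2 * Δ * (Cm * l) / exp (-(l - 3 * log l)) :=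
    div_le_div_of_nonneg_right (mul_le_mul_of_nonneg_left ht (by positivity)) (exp_pos _).le
  have e2 : 2 * Δ * (Cm * l) / exp (-(l - 3 * log l)) = 2 * Δ * Cm * (N / l ^ 2) := by
    rw [om_eq hN hl]
    field_simp
  linarith

lemma c2 {l N B Δ Cm K : ℝ} (hN : N = exp l) (h1 : 1 ≤ l) (hK : 0 < K)
    (hB : B ≤ 1 + 2 * Δ * Cm * (N / l ^ 2)) (h21 : 24 * K ≤ 1 * exp (1 * l))
    (h22 : 16 * K * Δ * Cm ≤ l) : 4 * K * (B + 2) ≤ N := by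
  have hl : 0 < l := by linarith
  have hN0 : 0 < N := hN ▸ exp_pos l
  rw [one_mul, one_mul, ← hN] at h21
  have e1 : 4 * K * (B + 2) ≤ 4 * K * (3 + 2 * Δ * Cm * (N / l ^ 2)) :=
    mul_le_mul_of_nonneg_left (by linarith) (by positivity)
  have e2 : 4 * K * (2 * Δ * Cm * (N / l ^ 2)) ≤ N / 2 := by
    have e3 : 4 * K * (2 * Δ * Cm * (N / l ^ 2)) = (16 * K * Δ * Cm) * (N / (2 * l ^ 2)) := by
      field_simp
      ring
    have e4 : l * (N / (2 * l ^ 2)) ≤ N / 2 := by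
      rw [show l * (N / (2 * l ^ 2)) = (N / 2) / l by field_simp]
      exact div_le_self (by positivity) h1
    rw [e3]
    exact (mul_le_mul_of_nonneg_right h22 (by positivity)).trans e4
  linarith

lemma c3 {l N Δ : ℝ} {r : ℕ} (hN : N = exp l) (h1 : 1 ≤ l) (hΔ : 0 < Δ)
    (h4 : Δ ^ r ≤ exp (1 / 100 * l)) (h23 : 1 * l ^ 3 ≤ 1 * exp (1 / 2 * l)) :
    exp (-(l - 3 * log l)) ≤ (1 / Δ) ^ r := by
  have hl : 0 < l := by linarith
  have hN0 : 0 < N := hN ▸ exp_pos l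
  rw [om_eq hN hl, one_div, inv_pow, div_le_iff₀ hN0, inv_mul_eq_div, le_div_iff₀ (by positivity)]
  calc l ^ 3 * Δ ^ r ≤ exp (1 / 2 * l) * exp (1 / 100 * l) :=
        mul_le_mul (by linarith) h4 (by positivity) (exp_pos _).le
    _ = exp (51 / 100 * l) := by rw [← exp_add]; congr 1; ring
    _ ≤ exp l := exp_le_exp.mpr (by linarith)
    _ = N := hN.symm

lemma err_le {K Δ B N l Cm : ℝ} (hN : N = exp l) (h1 : 1 ≤ l) (hK : 0 < K) (hΔ : 0 < Δ)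
    (hB : B ≤ 1 + 2 * Δ * Cm * (N / l ^ 2)) (h24 : 1 * l ^ 2 ≤ 1 * exp (1 * l)) :
    20 * K ^ 2 * Δ * (B + 1) / N + 20 * K / (N * exp (-(l - 3 * log l))) ≤
      (40 * K ^ 2 * Δ + 40 * K ^ 2 * Δ ^ 2 * Cm + 20 * K) * (1 / l ^ 2) := by
  have hl : 0 < l := by linarith
  have hN0 : 0 < N := hN ▸ exp_pos l
  rw [one_mul, one_mul, one_mul, ← hN] at h24
  have f1 : 20 * K ^ 2 * Δ * (B + 1) / N ≤
      (40 * K ^ 2 * Δ) * (1 / l ^ 2) + (40 * K ^ 2 * Δ ^ 2 * Cm) * (1 / l ^ 2) := by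
    rw [div_le_iff₀ hN0]
    have e1 : 20 * K ^ 2 * Δ * (B + 1) ≤ 20 * K ^ 2 * Δ * (2 + 2 * Δ * Cm * (N / l ^ 2)) :=
      mul_le_mul_of_nonneg_left (by linarith) (by positivity)
    have e2 : 20 * K ^ 2 * Δ * (2 + 2 * Δ * Cm * (N / l ^ 2)) =
        (40 * K ^ 2 * Δ) * 1 + (40 * K ^ 2 * Δ ^ 2 * Cm) * (1 / l ^ 2) * N := by
      ring
    have e3 : (1 : ℝ) ≤ (1 / l ^ 2) * N := by
      rw [one_div, inv_mul_eq_div, le_div_iff₀ (by positivity)]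
      linarith
    have e4 : (40 * K ^ 2 * Δ) * 1 ≤ (40 * K ^ 2 * Δ) * ((1 / l ^ 2) * N) :=
      mul_le_mul_of_nonneg_left e3 (by positivity)
    calc 20 * K ^ 2 * Δ * (B + 1) ≤ _ := e1
      _ = _ := e2
      _ ≤ (40 * K ^ 2 * Δ) * ((1 / l ^ 2) * N) + (40 * K ^ 2 * Δ ^ 2 * Cm) * (1 / l ^ 2) * N := by
          linarith
      _ = _ := by ring
  have f2 : 20 * K / (N * exp (-(l - 3 * log l))) ≤ 20 * K * (1 / l ^ 2) := by
    rw [Nom hN hl, div_eq_mul_one_div]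
    refine mul_le_mul_of_nonneg_left ?_ (by positivity)
    refine one_div_le_one_div_of_le (by positivity) ?_
    exact pow_le_pow_right₀ h1 (by norm_num)
  rw [add_mul, add_mul]
  linarith

lemma g1 {e' C2 Cm l err t : ℝ} {r : ℕ} (h1 : 1 ≤ l) (he' : 0 < e') (hC2 : 0 < C2) (hCm : 0 < Cm)
    (herr0 : 0 ≤ err) (herr : err ≤ C2 * (1 / l ^ 2)) (ht0 : 0 ≤ t) (ht : t ≤ Cm * l)
    (h25 : 4 * C2 * Cm / e' ≤ l) :
    (e' * 2 ^ r / 16) * err * t ≤ 1 / 64 * e' ^ 2 * 2 ^ r := by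
  have hl : 0 < l := by linarith
  have e1 : err * t ≤ (C2 * (1 / l ^ 2)) * (Cm * l) := mul_le_mul herr ht ht0 (by positivity)
  have e2 : (C2 * (1 / l ^ 2)) * (Cm * l) = C2 * Cm / l := by field_simp
  have e3 : C2 * Cm / l ≤ e' / 4 := by
    rw [div_le_iff₀ hl]
    have := mul_le_mul_of_nonneg_left h25 (by positivity : (0 : ℝ) ≤ e' / 4)
    have e4 : e' / 4 * (4 * C2 * Cm / e') = C2 * Cm := by field_simp
    linarith
  calc (e' * 2 ^ r / 16) * err * t = (e' * 2 ^ r / 16) * (err * t) := by ring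
    _ ≤ (e' * 2 ^ r / 16) * (e' / 4) :=
        mul_le_mul_of_nonneg_left (by linarith) (by positivity)
    _ = 1 / 64 * e' ^ 2 * 2 ^ r := by ring

lemma g2 {e' l x : ℝ} {r : ℕ} (he' : 0 < e') (h1 : 1 ≤ l) (h2 : l ^ 3 ≤ 2 ^ r)
    (h19 : 64 / e' ^ 2 ≤ l) (hx : x ≤ 1 / 64 * e' ^ 2 * 2 ^ r) :
    -(e' * 2 ^ r / 16) * e' + 4 * (e' * 2 ^ r / 16) ^ 2 * (1 / 2) ^ r + x ≤ -(2 * l) := by
  rw [Num.g20]
  have f2 : 1 / 32 * e' ^ 2 * l ^ 3 ≤ 1 / 32 * e' ^ 2 * 2 ^ r :=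
    mul_le_mul_of_nonneg_left h2 (by positivity)
  have f3 : 1 ≤ 1 / 64 * e' ^ 2 * l := by
    have := mul_le_mul_of_nonneg_left h19 (by positivity : (0 : ℝ) ≤ 1 / 64 * e' ^ 2)
    have f4 : 1 / 64 * e' ^ 2 * (64 / e' ^ 2) = 1 := by field_simp
    linarith
  have f5 : 1 ≤ 1 / 64 * e' ^ 2 * l * l := by nlinarith
  have f6 : l ≤ (1 / 64 * e' ^ 2 * l * l) * l := by nlinarith
  have f7 : 1 / 32 * e' ^ 2 * l ^ 3 = 2 * ((1 / 64 * e' ^ 2 * l * l) * l) := by ring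
  linarith

lemma g3 {l N a de : ℝ} (hN : N = exp l) (ha : a ≤ -(2 * l))
    (h26 : 1 ≤ de / 2 * exp (1 * l)) : N * exp a ≤ de / 2 := by
  have hN0 : 0 < N := hN ▸ exp_pos l
  have f1 : exp a ≤ exp (-(2 * l)) := exp_le_exp.mpr ha
  calc N * exp a ≤ N * exp (-(2 * l)) := mul_le_mul_of_nonneg_left f1 hN0.le
    _ = 1 * exp (-(1 * l)) := by
        rw [hN, ← exp_add, one_mul]; congr 1; ring
    _ ≤ (de / 2 * exp (1 * l)) * exp (-(1 * l)) :=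
        mul_le_mul_of_nonneg_right h26 (exp_pos _).le
    _ = de / 2 := by
        rw [mul_assoc, ← exp_add, add_neg_cancel, exp_zero, mul_one]

lemma t1 {T N l de : ℝ} (hN : N = exp l) (hT0 : 0 ≤ T) (hde : 0 < de)
    (hT : T ≤ exp (1 / 2 * l)) (h27 : 2 ≤ de / 2 * exp (1 / 2 * l)) :
    2 * T / N ≤ de / 2 := by
  have hN0 : 0 < N := hN ▸ exp_pos l
  rw [div_le_iff₀ hN0]
  have f3 := Num.exphalf hN
  calc 2 * T ≤ (de / 2 * exp (1 / 2 * l)) * exp (1 / 2 * l) :=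
        mul_le_mul h27 hT hT0 (by positivity)
    _ = de / 2 * (exp (1 / 2 * l) * exp (1 / 2 * l)) := by ring
    _ = de / 2 * N := by rw [f3]

end num

lemma ev1 (K Δ ep Cm de e' C2 : ℝ) (hK : 0 < K) (hΔ1 : 1 ≤ Δ) (hde : 0 < de) :
    ∀ᶠ l : ℝ in atTop,
      1 ≤ l ∧ l ^ 3 ≤ 2 ^ R l ∧
      (Δ : ℝ) ^ R l ≤ Real.exp (1 / 100 * l) ∧
      (((4 * R l + 4 : ℕ) : ℝ) + 1) ^ 2 *
        (3 * K * Δ * (((4 * R l + 4 : ℕ) : ℝ) + 1)) ^ (4 * R l + 4) ≤ Real.exp (1 / 2 * l) ∧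
      20 * (K : ℝ) ≤ 1 * Real.exp (3 / 10 * l) ∧
      24 * (K : ℝ) ≤ 1 * Real.exp (1 * l) ∧
      16 * K * Δ * Cm ≤ l ∧
      1 * l ^ 3 ≤ 1 * Real.exp (1 / 2 * l) ∧
      1 * l ^ 2 ≤ 1 * Real.exp (1 * l) ∧
      4 * C2 * Cm / e' ≤ l ∧ 64 / e' ^ 2 ≤ l ∧
      1 ≤ de / 2 * Real.exp (1 * l) ∧ 2 ≤ de / 2 * Real.exp (1 / 2 * l) ∧ 2 / ep ≤ l := by
  filter_upwards [eventually_ge_atTop 1, two_pow_R,
    pow_R_le Δ (1 / 100) hΔ1 (by norm_num),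
    tangle_le 4 4 (3 * K * Δ) (1 / 2) (by positivity) (by norm_num),
    const_exp (20 * (K : ℝ)) (3 / 10) 1 (by norm_num) (by norm_num),
    const_exp (24 * (K : ℝ)) 1 1 (by norm_num) (by norm_num),
    eventually_ge_atTop (16 * K * Δ * Cm),
    poly_exp 3 1 (1 / 2) 1 (by norm_num) (by norm_num),
    poly_exp 2 1 1 1 (by norm_num) (by norm_num),
    eventually_ge_atTop (4 * C2 * Cm / e'),
    eventually_ge_atTop (64 / e' ^ 2),
    const_exp 1 1 (de / 2) (by norm_num) (by positivity),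
    const_exp 2 (1 / 2) (de / 2) (by norm_num) (by positivity),
    eventually_ge_atTop (2 / ep)] with l h1 h2 h3 h4 h5 h6 h7 h8 h9 h10 h11 h12 h13 h14
  exact ⟨h1, h2, h3, h4, h5, h6, h7, h8, h9, h10, h11, h12, h13, h14⟩

theorem main (hLB : S_LB) : S_LBA := by
  intro K Δ ep de Cm hK hep hde hCm
  have hK0 : (0 : ℝ) < K := by exact_mod_cast (by omega : 0 < K)
  have hK1 : (1 : ℝ) ≤ K := by exact_mod_cast (by omega : 1 ≤ K)
  rcases Nat.eq_zero_or_pos Δ with hΔ | hΔ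
  · exact ⟨0, fun I hI _ => absurd hΔ (UBA_h66.Δ_pos I hI).ne'⟩
  have hΔ1 : (1 : ℝ) ≤ Δ := by exact_mod_cast hΔ
  have hΔ0 : (0 : ℝ) < Δ := one_pos.trans_le hΔ1
  obtain ⟨e', he'0, he'1, he'2⟩ : ∃ e' : ℝ, 0 < e' ∧ e' ≤ 1 ∧ e' ≤ ep / 2 :=
    ⟨min (ep / 2) 1, lt_min (by positivity) one_pos, min_le_right _ _, min_le_left _ _⟩
  obtain ⟨l0, hl0⟩ := eventually_atTop.mp (ev1 K Δ ep Cm de e'
    (40 * (K : ℝ) ^ 2 * Δ + 40 * (K : ℝ) ^ 2 * (Δ : ℝ) ^ 2 * Cm + 20 * K) hK0 hΔ1 hde)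
  refine ⟨Real.exp l0, fun I hI hN t z0 ht hRt hid => ?_⟩
  have hNpos : (0 : ℝ) < I.N := by exact_mod_cast hI.npos
  obtain ⟨h1, h2, h4, h5, h8, h21, h22, h23, h24, h25, h19, h26, h27, h11⟩ :=
    hl0 (Real.log I.N) ((Real.le_log_iff_exp_le hNpos).mpr hN)
  have hNl : (I.N : ℝ) = Real.exp (Real.log I.N) := (Real.exp_log hNpos).symm
  have hRR : RR I = R (Real.log I.N) := rfl
  rw [hRR] at hRt hid
  clear hRR hN hl0
  generalize Real.log (I.N : ℝ) = l at *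
  generalize R l = r at *
  have hl0' : 0 < l := one_pos.trans_le h1
  have hom0 : 0 < Real.exp (-(l - 3 * Real.log l)) := Real.exp_pos _
  obtain ⟨B, hB⟩ : ∃ B : ℝ, B = 1 + 2 * Δ * t / Real.exp (-(l - 3 * Real.log l)) := ⟨_, rfl⟩
  have hBle : B ≤ 1 + 2 * Δ * Cm * (I.N / l ^ 2) := by
    rw [hB]; exact B_le hNl h1 hΔ0.le ht
  have hB0 : 0 ≤ B := by rw [hB]; positivity
  have c2' := c2 hNl h1 hK0 hBle h21 h22
  have c3' := c3 hNl h1 hΔ0 h4 h23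
  have c4' := Num.c4 r he'0 he'1
  have c6' := Num.c6 hNl hl0'.le hK1 hΔ1 (Nat.cast_nonneg _) h5 h8
  have c6 : 4 * K * ((4 * (r + 1)) + 2) ≤ I.N := by
    have h : 4 * K * ((4 * r + 4) + 2) ≤ I.N := by exact_mod_cast c6'
    have e : 4 * (r + 1) = 4 * r + 4 := by ring
    rw [e]; exact h
  have key := hLB K Δ I hI r (4 * (r + 1)) t (Real.exp (-(l - 3 * Real.log l))) B
    (e' * 2 ^ r / 16) e' z0 hom0 (by positivity) he'0 hRt rfl c6 hB.ge c2' c3' c4'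
    (fun k => by rw [Real.log_exp, neg_neg]; exact hid k)
  have hevent : ∀ η, I.D η t < z0 - ep →
      I.D η t < z0 - e' - 1 / (I.N * Real.exp (-(l - 3 * Real.log l))) := by
    intro η hη
    refine lt_of_lt_of_le hη ?_
    have e1 := one_div_Nom hNl h1 hep h11
    linarith only [e1, he'2]
  refine UBA_h66.pr_le I _ _ hevent de hde.le
    (key.trans (mul_le_mul_of_nonneg_left ?_ (by positivity)))
  have hT0 : 0 ≤ (((4 * r + 4 : ℕ) : ℝ) + 1) ^ 2 *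
        (3 * K * Δ * (((4 * r + 4 : ℕ) : ℝ) + 1)) ^ (4 * r + 4) := by positivity
  have t1' := t1 hNl hT0 hde h5 h27
  have herr := err_le hNl h1 hK0 hΔ0 hBle h24
  have herr0 : 0 ≤ 20 * (K : ℝ) ^ 2 * Δ * (B + 1) / I.N +
      20 * K / (I.N * Real.exp (-(l - 3 * Real.log l))) := by positivity
  have g1' := g1 (r := r) h1 he'0 (by positivity) hCm herr0 herr (Nat.cast_nonneg t) ht h25
  have g2' := g2 he'0 h1 h2 h19 g1'
  have g3' := g3 hNl g2' h26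
  have e : 4 * (r + 1) = 4 * r + 4 := by ring
  rw [e]
  unfold err
  linarith only [t1', g3']

end KS.LBA_h66
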