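import Mathlib

/-!
# KS: the numerical estimates used in UBA and LBA
-/

set_option autoImplicit false

namespace Pool.Agent.Helper66.KS.Num

open Real

lemma hhalf (r : ℕ) : ((1 : ℝ) / 2) ^ r = 1 / 2 ^ r := one_div_pow _ _

lemma sqrt_le_self {l : ℝ} (h1 : 1 ≤ l) : √l ≤ l := by
  rw [Real.sqrt_le_left (by linarith)]
  nlinarith

/-- 1 -/
lemma B_le {Δ t Cm l : ℝ} (hΔ : 0 ≤ Δ) (ht : t ≤ Cm * l)
    (h6 : 2 ≤ 1 / 2 * exp (7 / 10 * l)) (h7 : 2 * Δ * Cm * l ^ 1 ≤ 1 / 2 * exp (1 / 30 * l)) :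
    2 + 2 * Δ * t / exp (-(2 / 3 * l)) ≤ exp (7 / 10 * l) := by
  have e1 : 2 * Δ * t / exp (-(2 / 3 * l)) = 2 * Δ * t * exp (2 / 3 * l) := by
    rw [exp_neg, div_inv_eq_mul]
  have e2 : 2 * Δ * t * exp (2 / 3 * l) ≤ (1 / 2 * exp (1 / 30 * l)) * exp (2 / 3 * l) := by
    refine mul_le_mul_of_nonneg_right ?_ (exp_pos _).le
    calc 2 * Δ * t ≤ 2 * Δ * (Cm * l) := mul_le_mul_of_nonneg_left ht (by positivity)
      _ = 2 * Δ * Cm * l ^ 1 := by ring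
      _ ≤ _ := h7
  have e3 : (1 / 2 * exp (1 / 30 * l)) * exp (2 / 3 * l) = 1 / 2 * exp (7 / 10 * l) := by
    rw [mul_assoc, ← exp_add]
    congr 2
    ring
  rw [e1]
  linarith

lemma exp7 {l N : ℝ} (hN : N = exp l) : exp (7 / 10 * l) * exp (3 / 10 * l) = N := by
  rw [← exp_add, hN]; congr 1; ring

lemma exphalf {l N : ℝ} (hN : N = exp l) : exp (1 / 2 * l) * exp (1 / 2 * l) = N := by
  rw [← exp_add, hN]; congr 1; ring

/-- 2 -/
lemma c2 {K B l N : ℝ} (hN : N = exp l) (hK : 0 < K) (hB : 2 ≤ B) (hBexp : B ≤ exp (7 / 10 * l))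
    (h8 : 20 * K ≤ 1 * exp (3 / 10 * l)) : 4 * K * (3 * B + 2) ≤ N := by
  calc 4 * K * (3 * B + 2) ≤ 4 * K * (5 * B) :=
        mul_le_mul_of_nonneg_left (by linarith) (by positivity)
    _ = B * (20 * K) := by ring
    _ ≤ exp (7 / 10 * l) * exp (3 / 10 * l) :=
        mul_le_mul hBexp (by linarith) (by positivity) (exp_pos _).le
    _ = N := exp7 hN

/-- 3 -/
lemma c3 {Δ l : ℝ} {r : ℕ} (hΔ : 0 < Δ) (hl : 0 ≤ l) (h4 : Δ ^ r ≤ exp (1 / 100 * l)) :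
    exp (-(2 / 3 * l)) ≤ (1 / Δ) ^ r := by
  rw [one_div, inv_pow, exp_neg]
  refine inv_anti₀ (by positivity) (h4.trans ?_)
  rw [exp_le_exp]
  linarith

/-- 4 -/
lemma c4 {e' : ℝ} (r : ℕ) (h0 : 0 < e') (h1 : e' ≤ 1) :
    4 * (e' * 2 ^ r / 16) * (1 / 2) ^ r ≤ 1 := by
  rw [hhalf]
  have : 4 * (e' * 2 ^ r / 16) * (1 / 2 ^ r) = e' / 4 := by
    have h2r : (2 : ℝ) ^ r ≠ 0 := by positivity
    field_simp
    norm_num
  rw [this]
  linarith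

/-- 5 -/
lemma c5 {K N l : ℝ} {r : ℕ} (hK : 0 < K) (hN : 0 < N) (h1 : 1 ≤ l) (h9 : 4 * K ≤ l)
    (h2 : l ^ 3 ≤ 2 ^ r) : 4 * (N * (l * √l)) * K * (1 / 2) ^ r ≤ N := by
  have h2r : (0 : ℝ) < 2 ^ r := by positivity
  rw [hhalf, mul_one_div, div_le_iff₀ h2r]
  have e1 : l * √l ≤ l * l := mul_le_mul_of_nonneg_left (sqrt_le_self h1) (by linarith)
  have e2 : 4 * K * (l * √l) ≤ l * (l * l) :=
    mul_le_mul h9 e1 (by positivity) (by linarith)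
  have e3 : l * (l * l) ≤ 2 ^ r := by
    calc l * (l * l) = l ^ 3 := by ring
      _ ≤ _ := h2
  calc 4 * (N * (l * √l)) * K = N * (4 * K * (l * √l)) := by ring
    _ ≤ N * 2 ^ r := mul_le_mul_of_nonneg_left (e2.trans e3) hN.le

/-- 6 -/
lemma c6 {K Δ N l L : ℝ} {n : ℕ} (hN : N = exp l) (hl : 0 ≤ l) (hK : 1 ≤ K) (hΔ : 1 ≤ Δ)
    (hL : 0 ≤ L) (h5 : (L + 1) ^ 2 * (3 * K * Δ * (L + 1)) ^ n ≤ exp (1 / 2 * l))
    (h8 : 20 * K ≤ 1 * exp (3 / 10 * l)) : 4 * K * (L + 2) ≤ N := by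
  have e0 : L + 1 ≤ exp (1 / 2 * l) := by
    refine le_trans ?_ h5
    have f2 : (1 : ℝ) ≤ (3 * K * Δ * (L + 1)) ^ n := by
      refine one_le_pow₀ ?_
      have : 1 ≤ 3 * K * Δ := by nlinarith
      nlinarith
    nlinarith
  have e2 : 8 * K ≤ exp (1 / 2 * l) := by
    have : exp (3 / 10 * l) ≤ exp (1 / 2 * l) := by
      rw [exp_le_exp]; linarith
    linarith
  calc 4 * K * (L + 2) ≤ 4 * K * (2 * (L + 1)) :=
        mul_le_mul_of_nonneg_left (by linarith) (by positivity)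
    _ = (8 * K) * (L + 1) := by ring
    _ ≤ exp (1 / 2 * l) * exp (1 / 2 * l) :=
        mul_le_mul e2 e0 (by positivity) (exp_pos _).le
    _ = N := exphalf hN

/-- 7 -/
lemma rlog {Δ l c : ℝ} {r : ℕ} (hΔ : 1 ≤ Δ) (hl : 0 ≤ l) (hc : 0 ≤ c)
    (h10 : (r : ℝ) ≤ (c / (log Δ + 1)) * l) : (r : ℝ) * log Δ ≤ c * l := by
  have h : 0 ≤ log Δ := log_nonneg hΔ
  calc (r : ℝ) * log Δ ≤ (c / (log Δ + 1) * l) * (log Δ + 1) :=
        mul_le_mul h10 (by linarith) h (by positivity)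
    _ = c * l := by field_simp

/-- 8 -/
lemma half_le {ep l : ℝ} {r : ℕ} (hep : 0 < ep) (h1 : 1 ≤ l) (h11 : 8 / ep ≤ l)
    (h2 : l ^ 3 ≤ 2 ^ r) : 2 * ((1 : ℝ) / 2) ^ r ≤ ep / 4 := by
  have h2r : (0 : ℝ) < 2 ^ r := by positivity
  rw [hhalf, mul_one_div, div_le_iff₀ h2r]
  have f0 : l ≤ l ^ 3 := by nlinarith [mul_nonneg (by linarith : (0:ℝ) ≤ l) (by linarith : (0:ℝ) ≤ l)]
  have f2 : 8 / ep ≤ 2 ^ r := h11.trans (f0.trans h2)
  have f3 : ep / 4 * (8 / ep) ≤ ep / 4 * 2 ^ r := mul_le_mul_of_nonneg_left f2 (by positivity)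
  have f4 : ep / 4 * (8 / ep) = 2 := by field_simp; norm_num
  linarith

/-- 9 -/
lemma BD_le {B Δ ep l N : ℝ} {r : ℕ} (hN : N = exp l) (hΔ : 0 < Δ) (hep : 0 < ep)
    (hBexp : B ≤ exp (7 / 10 * l)) (h4 : Δ ^ r ≤ exp (1 / 100 * l))
    (h12 : Δ ^ 3 ≤ ep / 4 * exp (29 / 100 * l)) : B * Δ ^ (r + 3) / N ≤ ep / 4 := by
  have hN0 : 0 < N := hN ▸ exp_pos l
  rw [div_le_iff₀ hN0, pow_add]
  have f1 : Δ ^ r * Δ ^ 3 ≤ exp (1 / 100 * l) * (ep / 4 * exp (29 / 100 * l)) :=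
    mul_le_mul h4 h12 (by positivity) (exp_pos _).le
  calc B * (Δ ^ r * Δ ^ 3) ≤ exp (7 / 10 * l) *
        (exp (1 / 100 * l) * (ep / 4 * exp (29 / 100 * l))) :=
        mul_le_mul hBexp f1 (by positivity) (exp_pos _).le
    _ = ep / 4 * (exp (7 / 10 * l) * (exp (1 / 100 * l) * exp (29 / 100 * l))) := by ring
    _ = ep / 4 * N := by
        rw [← exp_add, ← exp_add, hN]
        congr 2
        ring

/-- 10 -/
lemma t1 {T e' N l de : ℝ} (hN : N = exp l) (hT0 : 0 ≤ T) (he' : 0 < e') (hde : 0 < de)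
    (hT : T ≤ exp (1 / 2 * l)) (h17 : 2 / e' ≤ de / 4 * exp (1 / 2 * l)) :
    2 * T / (e' * N) ≤ de / 4 := by
  have hN0 : 0 < N := hN ▸ exp_pos l
  rw [div_le_iff₀ (by positivity)]
  have f2 : (2 / e') * T ≤ (de / 4 * exp (1 / 2 * l)) * exp (1 / 2 * l) :=
    mul_le_mul h17 hT hT0 (by positivity)
  have f3 := exphalf hN
  calc 2 * T = (2 / e' * T) * e' := by field_simp
    _ ≤ ((de / 4 * exp (1 / 2 * l)) * exp (1 / 2 * l)) * e' :=
        mul_le_mul_of_nonneg_right f2 he'.le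
    _ = de / 4 * (e' * (exp (1 / 2 * l) * exp (1 / 2 * l))) := by ring
    _ = de / 4 * (e' * N) := by rw [f3]

/-- 11 -/
lemma t2 {T N l de : ℝ} (hN : N = exp l) (hT0 : 0 ≤ T) (hde : 0 < de)
    (hT : T ≤ exp (1 / 2 * l)) (h18 : 1 ≤ de / 4 * exp (1 / 2 * l)) :
    T / N ≤ de / 4 := by
  have hN0 : 0 < N := hN ▸ exp_pos l
  rw [div_le_iff₀ hN0]
  have f3 := exphalf hN
  calc T = 1 * T := (one_mul _).symm
    _ ≤ (de / 4 * exp (1 / 2 * l)) * exp (1 / 2 * l) :=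
        mul_le_mul h18 hT hT0 (by positivity)
    _ = de / 4 * (exp (1 / 2 * l) * exp (1 / 2 * l)) := by ring
    _ = de / 4 * N := by rw [f3]

/-- 12 -/
lemma err_le {K Δ B N l : ℝ} (hN : N = exp l) (hl : 0 ≤ l) (hK : 0 < K) (hΔ : 0 < Δ)
    (hB : 2 ≤ B) (hBexp : B ≤ exp (7 / 10 * l)) :
    20 * K ^ 2 * Δ * (B + 1) / N + 20 * K / (N * exp (-(2 / 3 * l))) ≤
      (40 * K ^ 2 * Δ + 20 * K) * exp (-(3 / 10 * l)) := by
  have hN0 : 0 < N := hN ▸ exp_pos l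
  have e : exp (7 / 10 * l) = exp (-(3 / 10 * l)) * N := by
    rw [hN, ← exp_add]; congr 1; ring
  have f1 : 20 * K ^ 2 * Δ * (B + 1) / N ≤ (40 * K ^ 2 * Δ) * exp (-(3 / 10 * l)) := by
    rw [div_le_iff₀ hN0]
    calc 20 * K ^ 2 * Δ * (B + 1) ≤ 20 * K ^ 2 * Δ * (2 * exp (7 / 10 * l)) :=
          mul_le_mul_of_nonneg_left (by linarith) (by positivity)
      _ = (40 * K ^ 2 * Δ) * exp (-(3 / 10 * l)) * N := by
          rw [e]; ring
  have f2 : 20 * K / (N * exp (-(2 / 3 * l))) ≤ 20 * K * exp (-(3 / 10 * l)) := by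
    have hp : 0 < exp (-(2 / 3 * l)) := exp_pos _
    rw [div_le_iff₀ (by positivity)]
    have e1 : exp (-(3 / 10 * l)) * (N * exp (-(2 / 3 * l))) = exp (1 / 30 * l) := by
      rw [hN, ← exp_add, ← exp_add]; congr 1; ring
    rw [mul_assoc (20 * K), e1]
    have : 1 ≤ exp (1 / 30 * l) := one_le_exp (by positivity)
    nlinarith
  rw [add_mul]
  linarith

/-- 13 -/
lemma g1 {e' C1 Cm l err t : ℝ} {r : ℕ} (he' : 0 < e') (hC1 : 0 < C1) (hCm : 0 < Cm)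
    (herr0 : 0 ≤ err) (herr : err ≤ C1 * exp (-(3 / 10 * l))) (ht0 : 0 ≤ t) (ht : t ≤ Cm * l)
    (h3 : (2 : ℝ) ^ r ≤ exp (1 / 100 * l))
    (h13 : (e' / 16 * C1 * Cm) * l ^ 1 ≤ 1 * exp (29 / 100 * l)) :
    (e' * 2 ^ r / 16) * err * t ≤ 1 := by
  have f1 : e' * 2 ^ r / 16 ≤ e' / 16 * exp (1 / 100 * l) := by
    calc e' * 2 ^ r / 16 = e' / 16 * 2 ^ r := by ring
      _ ≤ _ := mul_le_mul_of_nonneg_left h3 (by positivity)
  calc (e' * 2 ^ r / 16) * err * t ≤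
        (e' / 16 * exp (1 / 100 * l)) * (C1 * exp (-(3 / 10 * l))) * (Cm * l) := by
        refine mul_le_mul (mul_le_mul f1 herr herr0 (by positivity)) ht ht0 (by positivity)
    _ = ((e' / 16 * C1 * Cm) * l ^ 1) * (exp (1 / 100 * l) * exp (-(3 / 10 * l))) := by ring
    _ ≤ (1 * exp (29 / 100 * l)) * (exp (1 / 100 * l) * exp (-(3 / 10 * l))) :=
        mul_le_mul_of_nonneg_right h13 (by positivity)
    _ = 1 := by
        rw [one_mul, ← exp_add, ← exp_add]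
        have : 29 / 100 * l + (1 / 100 * l + -(3 / 10 * l)) = 0 := by ring
        rw [this, exp_zero]

lemma g20 (e' : ℝ) (r : ℕ) : -(e' * 2 ^ r / 16) * e' + 4 * (e' * 2 ^ r / 16) ^ 2 * (1 / 2) ^ r =
    -(3 / 64 * e' ^ 2 * 2 ^ r) := by
  rw [hhalf]
  have h2r : (2 : ℝ) ^ r ≠ 0 := by positivity
  field_simp
  ring

/-- 14 -/
lemma g2 {e' l : ℝ} {r : ℕ} (he' : 0 < e') (h1 : 1 ≤ l) (h2 : l ^ 3 ≤ 2 ^ r)
    (h19 : 64 / e' ^ 2 ≤ l) :
    -(e' * 2 ^ r / 16) * e' + 4 * (e' * 2 ^ r / 16) ^ 2 * (1 / 2) ^ r ≤ -(3 * l) := by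
  rw [g20, neg_le_neg_iff]
  have f2 : 3 / 64 * e' ^ 2 * l ^ 3 ≤ 3 / 64 * e' ^ 2 * 2 ^ r :=
    mul_le_mul_of_nonneg_left h2 (by positivity)
  have f3 : 1 ≤ 1 / 64 * e' ^ 2 * l := by
    have := mul_le_mul_of_nonneg_left h19 (by positivity : (0 : ℝ) ≤ 1 / 64 * e' ^ 2)
    have f4 : 1 / 64 * e' ^ 2 * (64 / e' ^ 2) = 1 := by field_simp
    linarith
  have f5 : 1 ≤ 1 / 64 * e' ^ 2 * l * l := by nlinarith
  have f6 : l ≤ (1 / 64 * e' ^ 2 * l * l) * l := by nlinarith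
  have f7 : 3 / 64 * e' ^ 2 * l ^ 3 = 3 * ((1 / 64 * e' ^ 2 * l * l) * l) := by ring
  linarith

/-- 15 -/
lemma g3 {K l N a de : ℝ} (hN : N = exp l) (hK : 0 < K) (ha : a ≤ -(3 * l) + 1)
    (h15 : (K + 2) * exp 1 ≤ de / 4 * exp (1 * l)) : N ^ 2 * ((K + 2) * exp a) ≤ de / 4 := by
  have f1 : exp a ≤ exp (-(3 * l) + 1) := exp_le_exp.mpr ha
  calc N ^ 2 * ((K + 2) * exp a) ≤ N ^ 2 * ((K + 2) * exp (-(3 * l) + 1)) :=
        mul_le_mul_of_nonneg_left (mul_le_mul_of_nonneg_left f1 (by positivity)) (by positivity)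
    _ = ((K + 2) * exp 1) * exp (-(1 * l)) := by
        have : exp l ^ 2 * exp (-(3 * l)) = exp (-(1 * l)) := by
          rw [← exp_nat_mul, ← exp_add]; congr 1; push_cast; ring
        rw [hN, exp_add, ← this]; ring
    _ ≤ (de / 4 * exp (1 * l)) * exp (-(1 * l)) :=
        mul_le_mul_of_nonneg_right h15 (exp_pos _).le
    _ = de / 4 := by
        rw [mul_assoc, ← exp_add, add_neg_cancel, exp_zero, mul_one]

/-- 15' -/
lemma g3' {l N a de : ℝ} (hN : N = exp l) (ha : a ≤ -(3 * l) + 1)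
    (h16 : exp 1 ≤ de / 4 * exp (1 * l)) : N ^ 2 * exp a ≤ de / 4 := by
  have f1 : exp a ≤ exp (-(3 * l) + 1) := exp_le_exp.mpr ha
  calc N ^ 2 * exp a ≤ N ^ 2 * exp (-(3 * l) + 1) :=
        mul_le_mul_of_nonneg_left f1 (by positivity)
    _ = exp 1 * exp (-(1 * l)) := by
        have : exp l ^ 2 * exp (-(3 * l)) = exp (-(1 * l)) := by
          rw [← exp_nat_mul, ← exp_add]; congr 1; push_cast; ring
        rw [hN, exp_add, ← this]; ring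
    _ ≤ (de / 4 * exp (1 * l)) * exp (-(1 * l)) :=
        mul_le_mul_of_nonneg_right h16 (exp_pos _).le
    _ = de / 4 := by
        rw [mul_assoc, ← exp_add, add_neg_cancel, exp_zero, mul_one]

/-- 16 -/
lemma g4 {K B e' l N th : ℝ} (hN : N = exp l) (h1 : 1 ≤ l) (hK : 0 < K) (he' : 0 < e')
    (hB : 2 ≤ B) (hBexp : B ≤ exp (7 / 10 * l)) (hth : th = 1 / (N * l ^ 2))
    (h14 : (80 * K ^ 2) * l ^ 2 ≤ 1 * exp (3 / 10 * l)) (h20 : (3 * K + 3) / e' ≤ √l) :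
    -(N * (l * √l)) * e' / N + 3 * K * (N * (l * √l)) ^ 2 * th / N +
      20 * K ^ 2 * (N * (l * √l)) * (3 * B + 1) / N ^ 2 ≤ -(3 * l) + 1 := by
  have hN0 : 0 < N := hN ▸ exp_pos l
  have hl0 : 0 < l := by linarith
  have hss : √l * √l = l := mul_self_sqrt hl0.le
  have f1 : -(N * (l * √l)) * e' / N = -(e' * (l * √l)) := by field_simp
  have f2 : 3 * K * (N * (l * √l)) ^ 2 * th / N = 3 * K * l := by
    have : (l * √l) ^ 2 = l ^ 3 := by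
      rw [mul_pow, sq (√l), hss]; ring
    rw [hth, mul_pow, this]
    field_simp
  have f3 : 20 * K ^ 2 * (N * (l * √l)) * (3 * B + 1) / N ^ 2 ≤ 1 := by
    rw [div_le_one (by positivity)]
    have e1 : l * √l ≤ l ^ 2 := by
      rw [sq]; exact mul_le_mul_of_nonneg_left (sqrt_le_self h1) hl0.le
    have e2 : 3 * B + 1 ≤ 4 * exp (7 / 10 * l) := by linarith
    calc 20 * K ^ 2 * (N * (l * √l)) * (3 * B + 1) =
          N * (20 * K ^ 2 * ((l * √l) * (3 * B + 1))) := by ring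
      _ ≤ N * (20 * K ^ 2 * (l ^ 2 * (4 * exp (7 / 10 * l)))) := by
          refine mul_le_mul_of_nonneg_left (mul_le_mul_of_nonneg_left ?_ (by positivity)) hN0.le
          exact mul_le_mul e1 e2 (by linarith) (by positivity)
      _ = N * (exp (7 / 10 * l) * ((80 * K ^ 2) * l ^ 2)) := by ring
      _ ≤ N * (exp (7 / 10 * l) * (1 * exp (3 / 10 * l))) := by
          refine mul_le_mul_of_nonneg_left (mul_le_mul_of_nonneg_left h14 (exp_pos _).le) hN0.le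
      _ = N ^ 2 := by rw [one_mul, exp7 hN, sq]
  have f4 : (3 * K + 3) * l ≤ e' * (l * √l) := by
    have e1 := mul_le_mul_of_nonneg_left h20 (by positivity : (0 : ℝ) ≤ e' * l)
    have e2 : e' * l * ((3 * K + 3) / e') = (3 * K + 3) * l := by field_simp
    have e3 : e' * l * √l = e' * (l * √l) := by ring
    linarith
  rw [f1, f2]
  linarith

/-- 17: the threshold -/
lemma th_eq {l N : ℝ} (hN : N = exp l) (hl : 0 < l) :
    exp (-(l + 2 * log l)) = 1 / (N * l ^ 2) := by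
  rw [hN, exp_neg, exp_add, one_div, show (2 : ℝ) * log l = ((2 : ℕ) : ℝ) * log l by norm_num,
    exp_nat_mul, exp_log hl]

end Pool.Agent.Helper66.KS.Num
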