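import Pool.Agent.Helper96.KS.Parts
import Pool.Agent.Helper66.KS.Asy
import Pool.Agent.Helper66.KS.Num

/-!
# KS, part UBA: asymptotic form of the upper bound
-/

set_option autoImplicit false

open Finset Filter Topology

namespace KS.UBA_h66

open KS.Inst
open Pool.Agent.Helper66.KS.Asy Pool.Agent.Helper66.KS

open scoped Classical

lemma ideal_mono (hTN : S_TN) (hQ : S_Q) {K Δ : ℕ} (I : Inst K) (hI : I.Valid Δ) (n1 n2 : ℕ)
    {a b a' b' : ℝ} (ha : a' ≤ a) (hb : b ≤ b') (k1 k2 : Fin K) :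
    I.ideal n1 n2 a b k1 k2 ≤ I.ideal n1 n2 a' b' k1 k2 := by
  obtain ⟨hm, -⟩ := hTN K Δ I hI
  obtain ⟨hq, -⟩ := hQ K Δ I hI
  unfold ideal
  refine hm _ _ _ (fun k x => hm _ _ _ (fun l y => ?_) _ _) _ _
  split_ifs with h1 h2 h2
  · exact le_rfl
  · exact absurd ⟨ha.trans h1.1, h1.2.1.trans hb, h1.2.2.trans hb⟩ h2
  · exact hq k l
  · exact le_rfl

lemma pr_le {K : ℕ} (I : Inst K) (E F : (I.H → I.H) → Prop) (hEF : ∀ η, E η → F η) (b : ℝ)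
    (hb : 0 ≤ b) (h : ((I.Om.filter F).card : ℝ) ≤ I.Om.card * b) : I.pr E ≤ b := by
  unfold pr
  have h1 : ((I.Om.filter E).card : ℝ) ≤ (I.Om.filter F).card := by
    exact_mod_cast Finset.card_le_card (Finset.monotone_filter_right _ (fun η _ => hEF η))
  rcases Nat.eq_zero_or_pos I.Om.card with h0 | h0
  · rw [h0]; simpa using hb
  · have h0' : (0 : ℝ) < I.Om.card := by exact_mod_cast h0
    rw [div_le_iff₀ h0']
    linarith

lemma Δ_pos {K Δ : ℕ} (I : Inst K) (hI : I.Valid Δ) : 0 < Δ := by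
  have h1 := hI.npos
  rw [N, Fintype.card_pos_iff] at h1
  obtain ⟨x⟩ := h1
  have h2 := hI.d3 x.1
  have h3 := hI.dΔ x.1
  omega

/-- the eventual facts -/
lemma ev1 (K Δ ep Cm : ℝ) (hK : 0 < K) (hΔ1 : 1 ≤ Δ) : ∀ᶠ l : ℝ in atTop,
      1 ≤ l ∧ l ^ 3 ≤ 2 ^ R l ∧ (2 : ℝ) ^ R l ≤ Real.exp (1 / 100 * l) ∧
      (Δ : ℝ) ^ R l ≤ Real.exp (1 / 100 * l) ∧
      (((34 * R l + 16 : ℕ) : ℝ) + 1) ^ 2 *
        (3 * K * Δ * (((34 * R l + 16 : ℕ) : ℝ) + 1)) ^ (34 * R l + 16) ≤ Real.exp (1 / 2 * l) ∧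
      2 ≤ 1 / 2 * Real.exp (7 / 10 * l) ∧
      2 * Δ * Cm * l ^ 1 ≤ 1 / 2 * Real.exp (1 / 30 * l) ∧
      20 * (K : ℝ) ≤ 1 * Real.exp (3 / 10 * l) ∧
      4 * (K : ℝ) ≤ l ∧
      (R l : ℝ) ≤ (1 / 70 / (Real.log Δ + 1)) * l ∧
      8 / ep ≤ l := by
  filter_upwards [eventually_ge_atTop 1, two_pow_R, pow_R_le 2 (1 / 100) one_le_two (by norm_num),
    pow_R_le Δ (1 / 100) hΔ1 (by norm_num),
    tangle_le 34 16 (3 * K * Δ) (1 / 2) (by positivity) (by norm_num),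
    const_exp 2 (7 / 10) (1 / 2) (by norm_num) (by norm_num),
    poly_exp 1 (2 * Δ * Cm) (1 / 30) (1 / 2) (by norm_num) (by norm_num),
    const_exp (20 * (K : ℝ)) (3 / 10) 1 (by norm_num) (by norm_num),
    eventually_ge_atTop (4 * (K : ℝ)),
    R_le (1 / 70 / (Real.log Δ + 1)) (by have := Real.log_nonneg hΔ1; positivity),
    eventually_ge_atTop (8 / ep)] with l h1 h2 h3 h4 h5 h6 h7 h8 h9 h10 h11
  exact ⟨h1, h2, h3, h4, h5, h6, h7, h8, h9, h10, h11⟩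

lemma ev2 (K Δ ep Cm de e' C1 : ℝ) (hep : 0 < ep) (hde : 0 < de) : ∀ᶠ l : ℝ in atTop,
      (Δ : ℝ) ^ 3 ≤ ep / 4 * Real.exp (29 / 100 * l) ∧
      (e' / 16 * C1 * Cm) * l ^ 1 ≤ 1 * Real.exp (29 / 100 * l) ∧
      (80 * (K : ℝ) ^ 2) * l ^ 2 ≤ 1 * Real.exp (3 / 10 * l) ∧
      ((K : ℝ) + 2) * Real.exp 1 ≤ de / 4 * Real.exp (1 * l) ∧
      Real.exp 1 ≤ de / 4 * Real.exp (1 * l) ∧
      2 / e' ≤ de / 4 * Real.exp (1 / 2 * l) ∧
      1 ≤ de / 4 * Real.exp (1 / 2 * l) ∧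
      64 / e' ^ 2 ≤ l ∧ (3 * K + 3) / e' ≤ Real.sqrt l := by
  filter_upwards [const_exp ((Δ : ℝ) ^ 3) (29 / 100) (ep / 4) (by norm_num) (by positivity),
    poly_exp 1 (e' / 16 * C1 * Cm) (29 / 100) 1 (by norm_num) one_pos,
    poly_exp 2 (80 * (K : ℝ) ^ 2) (3 / 10) 1 (by norm_num) one_pos,
    const_exp (((K : ℝ) + 2) * Real.exp 1) 1 (de / 4) one_pos (by positivity),
    const_exp (Real.exp 1) 1 (de / 4) one_pos (by positivity),
    const_exp (2 / e') (1 / 2) (de / 4) (by norm_num) (by positivity),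
    const_exp 1 (1 / 2) (de / 4) (by norm_num) (by positivity),
    eventually_ge_atTop (64 / e' ^ 2),
    Real.tendsto_sqrt_atTop.eventually_ge_atTop ((3 * K + 3) / e')] with
      l h1 h2 h3 h4 h5 h6 h7 h8 h9
  exact ⟨h1, h2, h3, h4, h5, h6, h7, h8, h9⟩

/-- the choice of `e'` -/
lemma exists_e' (K ep : ℝ) (hK : 0 < K) (hep : 0 < ep) :
    ∃ e' : ℝ, 0 < e' ∧ e' ≤ 1 ∧ 5 * K * e' ≤ ep / 2 := by
  refine ⟨min (ep / (10 * K)) 1, lt_min (by positivity) one_pos, min_le_right _ _, ?_⟩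
  have : min (ep / (10 * K)) 1 ≤ ep / (10 * K) := min_le_left _ _
  calc 5 * K * min (ep / (10 * K)) 1 ≤ 5 * K * (ep / (10 * K)) :=
        mul_le_mul_of_nonneg_left this (by positivity)
    _ = ep / 2 := by field_simp; norm_num

lemma halves (t r : ℕ) (h : 3 * r ≤ t) : ∃ n1 n2 : ℕ, n1 + n2 + 3 * r = t ∧ n1 ≤ n2 ∧
    n2 ≤ n1 + 1 := ⟨(t - 3 * r) / 2, (t - 3 * r) - (t - 3 * r) / 2, by omega, by omega, by omega⟩

theorem main (hUB : S_UB) (hTN : S_TN) (hQ : S_Q) : S_UBA := by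
  intro K Δ ep de Cm hK hep hde hCm
  have hK0 : (0 : ℝ) < K := by exact_mod_cast (by omega : 0 < K)
  have hK1 : (1 : ℝ) ≤ K := by exact_mod_cast (by omega : 1 ≤ K)
  rcases Nat.eq_zero_or_pos Δ with hΔ | hΔ
  · exact ⟨0, fun I hI _ => absurd hΔ (Δ_pos I hI).ne'⟩
  have hΔ1 : (1 : ℝ) ≤ Δ := by exact_mod_cast hΔ
  have hΔ0 : (0 : ℝ) < Δ := one_pos.trans_le hΔ1
  obtain ⟨e', he'0, he'1, he'2⟩ := exists_e' K ep hK0 hep
  obtain ⟨l0, hl0⟩ := eventually_atTop.mp ((ev1 K Δ ep Cm hK0 hΔ1).and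
    (ev2 K Δ ep Cm de e' (40 * (K : ℝ) ^ 2 * Δ + 20 * K) hep hde))
  refine ⟨Real.exp l0, fun I hI hN t ze hze ht h3R hid => ?_⟩
  have hNpos : (0 : ℝ) < I.N := by exact_mod_cast hI.npos
  obtain ⟨⟨h1, h2, h3, h4, h5, h6, h7, h8, h9, h10, h11⟩, h12, h13, h14, h15, h16, h17, h18, h19,
    h20⟩ := hl0 (Real.log I.N) ((Real.le_log_iff_exp_le hNpos).mpr hN)
  have hNl : (I.N : ℝ) = Real.exp (Real.log I.N) := (Real.exp_log hNpos).symm
  have hRR : RR I = R (Real.log I.N) := rfl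
  rw [hRR] at h3R hid
  clear hRR hN hl0
  generalize Real.log (I.N : ℝ) = l at *
  generalize R l = r at *
  have hl0' : 0 < l := one_pos.trans_le h1
  obtain ⟨n1, n2, hn12, hn1, hn2⟩ := halves t r h3R
  have hid' := hid n1 n2 hn12 hn1 hn2
  clear hid
  -- parameters
  have hom0 : 0 < Real.exp (-(2 / 3 * l)) := Real.exp_pos _
  have hth0 : 0 < Real.exp (-(l + 2 * Real.log l)) := Real.exp_pos _
  have hthl := Num.th_eq hNl hl0'
  obtain ⟨B, hB⟩ : ∃ B : ℝ, B = 2 + 2 * Δ * t / Real.exp (-(2 / 3 * l)) := ⟨_, rfl⟩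
  have hB2 : 2 ≤ B := by
    have : 0 ≤ 2 * (Δ : ℝ) * t / Real.exp (-(2 / 3 * l)) := by positivity
    rw [hB]; linarith only [this]
  have hBexp : B ≤ Real.exp (7 / 10 * l) := by
    rw [hB]; exact Num.B_le hΔ0.le ht h6 h7
  have hsumle : ((n1 + r : ℕ) : ℝ) + ((n2 + r : ℕ) : ℝ) ≤ t := by
    exact_mod_cast (by omega : (n1 + r) + (n2 + r) ≤ t)
  have c1 : 2 + 2 * (Δ : ℝ) * (((n1 + r : ℕ) : ℝ) + ((n2 + r : ℕ) : ℝ)) /
      Real.exp (-(2 / 3 * l)) ≤ B := by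
    rw [hB]
    have h := div_le_div_of_nonneg_right
      (mul_le_mul_of_nonneg_left hsumle (by positivity : (0 : ℝ) ≤ 2 * Δ)) hom0.le
    linarith only [h]
  have c2 := Num.c2 hNl hK0 hB2 hBexp h8
  have c3 := Num.c3 hΔ0 hl0'.le h4
  have c4 := Num.c4 r he'0 he'1
  have c5 := Num.c5 hK0 hNpos h1 h9 h2
  have c6' := Num.c6 hNl hl0'.le hK1 hΔ1 (Nat.cast_nonneg _) h5 h8
  have c6 : 4 * K * ((34 * r + 16) + 2) ≤ I.N := by exact_mod_cast c6'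
  have hrlog := Num.rlog hΔ1 hl0'.le (by norm_num : (0 : ℝ) ≤ 1 / 70) h10
  have c7 : ∀ k1 k2, ze ≤ K * I.ideal (n1 + r - r) (n2 + r - r)
      (-Real.log (Real.exp (-(l + 2 * Real.log l))) - 2 * r * Real.log 2)
      (-Real.log (Real.exp (-(2 / 3 * l))) - r * Real.log Δ) k1 k2 := by
    intro k1 k2
    rw [Nat.add_sub_cancel, Nat.add_sub_cancel]
    refine (hid' k1 k2).trans (mul_le_mul_of_nonneg_left ?_ hK0.le)
    refine ideal_mono hTN hQ I hI n1 n2 ?_ ?_ k1 k2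
    · rw [Real.log_exp, neg_neg]
      have : 0 ≤ 2 * (r : ℝ) * Real.log 2 := by
        have := Real.log_nonneg one_le_two
        positivity
      linarith only [this]
    · rw [Real.log_exp, neg_neg]
      linarith only [hrlog, hl0']
  have key := hUB K Δ I hI r r (34 * r + 16) (n1 + r) (n2 + r) (Real.exp (-(2 / 3 * l)))
    (Real.exp (-(l + 2 * Real.log l))) B (e' * 2 ^ r / 16) (I.N * (l * Real.sqrt l)) e' ze
    hom0 hth0 (by positivity) (by positivity) he'0 (by omega) (by omega) hze c1 c2 c3 c4 c5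
    (by omega) c6 c7
  have htt : n1 + r + (n2 + r) + r = t := by omega
  rw [htt] at key
  -- the event
  have hevent : ∀ η, 1 - ze + ep < I.D η t →
      1 - ze + 5 * K * e' + 2 * (1 / 2) ^ r + B * (Δ : ℝ) ^ (r + 3) / I.N < I.D η t := by
    intro η hη
    refine lt_of_le_of_lt ?_ hη
    have e1 := Num.half_le hep h1 h11 h2
    have e2 := Num.BD_le hNl hΔ0 hep hBexp h4 h12
    linarith only [e1, e2, he'2]
  refine pr_le I _ _ hevent de hde.le (key.trans (mul_le_mul_of_nonneg_left ?_ (by positivity)))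
  -- the numerical estimate
  have hT0 : 0 ≤ (((34 * r + 16 : ℕ) : ℝ) + 1) ^ 2 *
        (3 * K * Δ * (((34 * r + 16 : ℕ) : ℝ) + 1)) ^ (34 * r + 16) := by positivity
  have t1 := Num.t1 hNl hT0 he'0 hde h5 h17
  have t2 := Num.t2 hNl hT0 hde h5 h18
  have hsum0 : (0 : ℝ) ≤ ((n1 + r : ℕ) : ℝ) + ((n2 + r : ℕ) : ℝ) := by positivity
  have herr := Num.err_le hNl hl0'.le hK0 hΔ0 hB2 hBexp
  have hB0 : 0 ≤ B := by linarith only [hB2]
  have herr0 : 0 ≤ 20 * (K : ℝ) ^ 2 * Δ * (B + 1) / I.N +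
      20 * K / (I.N * Real.exp (-(2 / 3 * l))) := by positivity
  have g1 := Num.g1 he'0 (by positivity) hCm herr0 herr hsum0 (hsumle.trans ht) h3 h13
  have g2 := Num.g2 he'0 h1 h2 h19
  have g3 := Num.g3 hNl hK0 (by linarith only [g1, g2] :
    -(e' * 2 ^ r / 16) * e' + 4 * (e' * 2 ^ r / 16) ^ 2 * (1 / 2) ^ r +
      (e' * 2 ^ r / 16) * (20 * (K : ℝ) ^ 2 * Δ * (B + 1) / I.N +
      20 * K / (I.N * Real.exp (-(2 / 3 * l)))) * (((n1 + r : ℕ) : ℝ) + ((n2 + r : ℕ) : ℝ)) ≤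
        -(3 * l) + 1) h15
  have g4 := Num.g4 hNl h1 hK0 he'0 hB2 hBexp hthl h14 h20
  have g5 := Num.g3' hNl g4 h16
  rw [mul_add ((I.N : ℝ) ^ 2)]
  unfold err
  linarith only [t1, t2, g3, g5]

end KS.UBA_h66
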